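import Pool.Agent.Helper3.FewP.GoalsB

set_option autoImplicit false

namespace Pool.Agent.Helper3.FewP.SUP

open Pool.Agent.Helper3.FewP Pool.Agent.Helper97.Tate

theorem bd (κ : ℕ) (r l : ℤ) (hr : 0 ≤ r) (hrκ : r < κ) :
    0 ≤ qe κ r l ∧ -(qe κ r l) ≤ l ∧ l ≤ qe κ r l + 1 := by
  have h : 2 * (l * (l - 1) / 2) = l * (l - 1) := by
    apply Int.mul_ediv_cancel'
    exact (Int.even_mul_pred_self l).two_dvd
  unfold qe
  generalize l * (l - 1) / 2 = T at h ⊢
  have hT0 : 0 ≤ T := by
    rcases le_or_gt 1 l with h1 | h1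
    · nlinarith
    · nlinarith
  have hκT : (r + 1) * T ≤ κ * T := mul_le_mul_of_nonneg_right (by omega) hT0
  rcases le_or_gt 1 l with h1 | h1
  · have h2 : l - 1 ≤ T := by
      rcases eq_or_lt_of_le h1 with h3 | h3
      · nlinarith
      · nlinarith
    have h3 : 0 ≤ r * l := mul_nonneg hr (by omega)
    have h4 : 0 ≤ r * T := mul_nonneg hr hT0
    refine ⟨by nlinarith, by nlinarith, by nlinarith⟩
  · have h2 : -l ≤ T := by nlinarith
    have h3 : r * (-l) ≤ r * T := mul_le_mul_of_nonneg_left h2 hr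
    refine ⟨by nlinarith, by nlinarith, by nlinarith⟩

theorem coeff_sum {G : Type} [AddCommGroup G] (s : Finset ℤ) (u : ℤ → AddMonoidAlgebra ℚ G) (g : G) :
    (∑ l ∈ s, u l).coeff g = ∑ l ∈ s, (u l).coeff g := by
  induction s using Finset.induction_on with
  | empty => simp
  | insert a s ha ih =>
    rw [Finset.sum_insert ha, Finset.sum_insert ha, AddMonoidAlgebra.coeff_add, Finsupp.add_apply, ih]

theorem t : G_SUP := by
  classical
  intro b κ E ρ i j r α β hr hrκ
  refine ⟨?_, ?_, fun l => (bd κ r l hr hrκ).1⟩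
  · intro N g hg
    unfold entB at hg
    rw [PowerSeries.coeff_mk, coeff_sum] at hg
    obtain ⟨l, _, hl⟩ := Finset.exists_ne_zero_of_sum_ne_zero hg
    by_cases hN : qe κ r l = N
    · rw [if_pos hN, AddMonoidAlgebra.coeff_single_apply] at hl
      refine ⟨l, hN, ?_⟩
      by_contra hne
      rw [if_neg (fun h => hne h.symm)] at hl
      exact hl rfl
    · rw [if_neg hN] at hl
      simp at hl
  · intro N l hN
    unfold entB
    rw [PowerSeries.coeff_mk, coeff_sum, Finset.sum_eq_single l]
    · rw [if_pos hN, AddMonoidAlgebra.coeff_single_apply, if_pos rfl]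
    · intro l' _ hl'
      by_cases hN' : qe κ r l' = N
      · rw [if_pos hN', AddMonoidAlgebra.coeff_single_apply, if_neg]
        intro h
        have h1 := congrFun (congrArg (fun x => x.2.1) h) i
        simp only [exB, Pi.single_eq_same] at h1
        have h2 : (κ : ℤ) * l' = κ * l := by linarith
        have h3 : (κ : ℤ) ≠ 0 := by omega
        exact hl' (mul_left_cancel₀ h3 h2)
      · rw [if_neg hN']
        simp
    · intro h
      exfalso
      apply h
      have h1 := bd κ r l hr hrκ
      rw [Finset.mem_Icc]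
      omega
end Pool.Agent.Helper3.FewP.SUP
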