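import Pool.Agent.Helper3.FewP.GoalsB

set_option autoImplicit false

namespace Pool.Agent.Helper3.FewP.WGT

open Pool.Agent.Helper3.FewP Pool.Agent.Helper97.Tate

theorem two_qe (κ : ℕ) (r l : ℤ) : 2 * qe κ r l = 2 * r * l + κ * (l * (l - 1)) := by
  have h : 2 * (l * (l - 1) / 2) = l * (l - 1) := by
    apply Int.mul_ediv_cancel'
    have := Int.even_mul_pred_self l
    exact this.two_dvd
  unfold qe
  linear_combination (κ : ℤ) * h

theorem t : G_WGT := by
  intro b κ' P E i j r l
  have hq := two_qe (b * κ') r l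
  have h1 : ∀ (c : Fin b → ℤ) (u : ℤ), ∑ i' : Fin b, c i' * (Pi.single i u : Fin b → ℤ) i' =
      c i * u := by
    intro c u
    rw [Finset.sum_eq_single i]
    · simp
    · intro i' _ hi'
      simp [Pi.single_eq_of_ne hi']
    · intro h
      exact absurd (Finset.mem_univ _) h
  simp only [ellB, exB, AddMonoidHom.coe_mk, ZeroHom.coe_mk, h1]
  push_cast at hq ⊢
  unfold BBi
  linear_combination (144 * ((b : ℤ) * κ') * (P : ℤ) ^ 4) * hq
end Pool.Agent.Helper3.FewP.WGT
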