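import Mathlib

/-!
# FewPoints (MP_d3128a_ag), block STRIP (helper3): the conditions `I(N, m)`

Rings with coefficients (`CoefRing`), theta functions by their coefficients, lattice strips.
Everything is elementary; there is no geometry in this block.

`theta_(j,r) = ∑_s q^(r s + k s (s-1) / 2) t^(-j s) z^(r + k s)`, `0 ≤ r < k`, `s ∈ ℤ`.
`I1`: for one point the vectors `(j^b D^a theta_(j,r))_(a+b<m)`, `j < N`, `r < k`, are linearly
independent.  `I2`: the same for `k` points at the heights `c_i`, multiplicity `u`,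
`N = u (u+1) / 2`.
-/

set_option autoImplicit false

namespace Pool.Agent.Helper3.FewP

/-- A ring whose elements have coefficients: `cf f γ` is the coefficient of `f` at the monomial of
exponent `γ` (for instance Hahn series, or power series over Laurent polynomials). -/
structure CoefRing (F R Γ : Type) [Field F] [CommRing R] [AddCommGroup Γ] where
  cf : R → Γ → F
  add : ∀ f g γ, cf (f + g) γ = cf f γ + cf g γ
  supp : ∀ f g γ, cf (f * g) γ ≠ 0 → ∃ α β, α + β = γ ∧ cf f α ≠ 0 ∧ cf g β ≠ 0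
  mul : ∀ f g α β, (∀ α' β', α' + β' = α + β → cf f α' ≠ 0 → cf g β' ≠ 0 → α' = α ∧ β' = β) →
    cf (f * g) (α + β) = cf f α * cf g β
  one : cf 1 0 = 1 ∧ ∀ γ, γ ≠ 0 → cf 1 γ = 0

/-- the pairs `(a, b)` with `a + b < m`. -/
abbrev Mon (m : ℕ) : Type := {ab : Fin m × Fin m // (ab.1 : ℕ) + (ab.2 : ℕ) < m}

/-- the monomials `n^a j^b`, `a + b < m`, at the point `x = (j, n)`. -/
def vec (F : Type) [Field F] (m : ℕ) (x : ℤ × ℤ) : Mon m → F :=
  fun ab => (x.2 : F) ^ (ab.1.1 : ℕ) * (x.1 : F) ^ (ab.1.2 : ℕ)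

/-- `2 P² n - (2P - 1) j`. -/
def DD (P : ℕ) (j n : ℤ) : ℤ := 2 * (P : ℤ) ^ 2 * n - (2 * P - 1) * j

/-- the point `x = (j, n)` is in the strip `h j + i ≤ n < h j + i + k`, `0 ≤ j < N`,
`h = (2P-1) / (2P²)`. -/
def Strip (k P N : ℕ) (i : ℤ) (x : ℤ × ℤ) : Prop :=
  0 ≤ x.1 ∧ x.1 < N ∧ 2 * (P : ℤ) ^ 2 * i ≤ DD P x.1 x.2 ∧
    DD P x.1 x.2 < 2 * (P : ℤ) ^ 2 * (i + k)

/-- the admissible numbers of levels. -/
def Adm (k P m N s : ℕ) : Prop :=
  (m = 2 * k * P + s ∧ N = P * (2 * k * P + 2 * s + 1)) ∨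
    (m + 1 + s = 2 * k * P ∧ N + P * (2 * s + 1) = P * (2 * k * P))

/-- **DET** (1 h, no hypotheses).  Non-vanishing of a determinant from one coefficient.
`M ρ c`: row `ρ`, column `c`; `p ρ` is the block of the row, `i0 c` the block of the column; `γ c` is
the monomial of lowest weight of the column.
Proof.  From `add`: `cf 0 γ = 0`, `cf (-f) γ = - cf f γ`, `cf (∑ f) γ = ∑ cf f γ`.
Claim, by induction on the finite set `s` of columns, for a map `σ` (`M (σ c) c`): (a) every `δ` with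
`cf (∏_{c ∈ s} M (σ c) c) δ ≠ 0` has either (`p (σ c) = i0 c` for all `c ∈ s` and `δ = ∑_{c ∈ s} γ c`) or
`∑_{c ∈ s} (ℓ (γ c) + lam (i0 c)) < ℓ δ + ∑_{c ∈ s} lam (p (σ c))`; (b) if `p (σ c) = i0 c` for all `c ∈ s`
then `cf (∏_{c ∈ s} M (σ c) c) (∑_{c ∈ s} γ c) = ∏_{c ∈ s} a (σ c) c`.  (a): `supp`.  (b): `mul`; if
`α' + β' = γ c + ∑ γ` with both coefficients nonzero, then by hypothesis and by (a) `ℓ α' ≥ ℓ (γ c)`, `ℓ β' ≥
∑ ℓ γ` with equality only for `α' = γ c`, `β' = ∑ γ`.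
Let `G = ∑_c γ c`.  `det` of the matrix in the last hypothesis is not zero, so some permutation `σ₀`
has `p (σ₀ c) = i0 c` for all `c`; hence `∑_c lam (i0 c) = ∑_c lam (p (σ₀ c)) = ∑_ρ lam (p ρ)`.  For a
permutation `σ` with `p (σ c) ≠ i0 c` for some `c` the coefficient of `∏ M (σ c) c` at `G` is zero: by (a) it
would give `∑_c (ℓ (γ c) + lam (i0 c)) < ℓ G + ∑_ρ lam (p ρ)`, a contradiction.  So the coefficient of
`M.det` at `G` is `∑_σ sign σ ∏_c (if p (σ c) = i0 c then a (σ c) c else 0)` (`Matrix.det_apply'`), the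
given determinant, and is not zero; so `M.det ≠ 0`. -/
def G_DET : Prop :=
  ∀ (F R Γ κ ι : Type) [Field F] [CommRing R] [AddCommGroup Γ] [Fintype ι] [DecidableEq ι]
    [DecidableEq κ] (K : CoefRing F R Γ) (ℓ : Γ →+ ℤ) (lam : κ → ℤ) (M : Matrix ι ι R)
    (p i0 : ι → κ) (γ : ι → Γ) (a : Matrix ι ι F),
    (∀ ρ c δ, K.cf (M ρ c) δ ≠ 0 →
      (p ρ = i0 c ∧ δ = γ c) ∨ ℓ (γ c) + lam (i0 c) < ℓ δ + lam (p ρ)) →
    (∀ ρ c, p ρ = i0 c → K.cf (M ρ c) (γ c) = a ρ c) →
    (Matrix.of fun ρ c => if p ρ = i0 c then a ρ c else 0).det ≠ 0 → M.det ≠ 0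

/-- **MIN** (0.6 h, no hypotheses).  A matrix with linearly independent columns has a nonsingular square
submatrix with all the columns.
Proof.  Let `A : Matrix ρ ι F`, `A r c = v c r`.  Its rank is `|ι|` (`LinearIndependent.rank_matrix` for the
transposed matrix, `Matrix.rank_transpose`), so the rows `r ↦ A r` span `ι → F`
(`Matrix.rank_eq_finrank_span_row`); a spanning family contains a basis (`exists_linearIndependent'` or
`Submodule.exists_fun_fin_finrank_span_eq`), indexed by `|ι|` rows; so there is an injective `f : ι → ρ` with the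
rows `A (f a)` linearly independent, and the determinant is not zero
(`Matrix.linearIndependent_rows_iff_isUnit`). -/
def G_MIN : Prop :=
  ∀ (F ρ ι : Type) [Field F] [Fintype ρ] [Fintype ι] [DecidableEq ι] (v : ι → ρ → F),
    LinearIndependent F v → ∃ f : ι → ρ, Function.Injective f ∧
      (Matrix.of fun (a c : ι) => v c (f a)).det ≠ 0

/-- **UNI** (1.2 h, no hypotheses).  Unisolvence: points on parallel lines `j - P n = const` with at
most `m, m - 1, .., 1` points.  `idx` is the number of the line.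
Proof.  (1) Let `V d` be the span of the functions `(j, n) ↦ n^a j^b`, `a + b ≤ d`, on `ℤ × ℤ` with values in
`F`.  `1 ∈ V 0`, and if `f ∈ V d` then `(α n + β j + δ) f ∈ V (d + 1)`; `V d ⊆ V (d + 1)`.  So a product of at most
`m - 1` affine functions is in `V (m - 1)`.
(2) A linear relation `∑_{x ∈ S} w x • vec F m x = 0` says `∑_{x ∈ S} w x * f x = 0` for every `f ∈ V (m - 1)`
(`m ≥ 1` if `S` is not empty).
(3) Let `L x = x.1 - P x.2`.  Claim `w x = 0` for all `x ∈ S`, by strong induction on `m - idx (L x)` (the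
lines with larger index first).  Given `x`, let `f = ∏_{c} (j - P n - c) ∏_y (n - y.2)`, the first product over
the values `c = L y`, `y ∈ S`, with `idx c < idx (L x)` (at most `idx (L x)` values because `idx` is injective on
the values), the second over the `y ∈ S`, `y ≠ x`, `L y = L x`.  The number of factors is at most
`idx (L x) + (card of the line) - 1 ≤ m - 1`.  `f y = 0` for `y ∈ S`, `y ≠ x`, if `idx (L y) < idx (L x)` or
`idx (L y) = idx (L x)` (then `L y = L x`); if `idx (L y) > idx (L x)` then `w y = 0` by induction.  `f x ≠ 0`: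
`L x ≠ c` for the first product; for `y ≠ x` with `L y = L x` we have `y.2 ≠ x.2`.  So `w x * f x = 0`, `w x = 0`
(`F` has characteristic zero, so integers that are not zero are not zero in `F`). -/
def G_UNI : Prop :=
  ∀ (F : Type) [Field F] [CharZero F] (m : ℕ) (P : ℤ) (S : Finset (ℤ × ℤ)) (idx : ℤ → ℕ),
    (∀ x ∈ S, idx (x.1 - P * x.2) < m) →
    (∀ x ∈ S, ∀ y ∈ S, idx (x.1 - P * x.2) = idx (y.1 - P * y.2) →
      x.1 - P * x.2 = y.1 - P * y.2) →
    (∀ x ∈ S, (S.filter fun y => y.1 - P * y.2 = x.1 - P * x.2).card +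
      idx (x.1 - P * x.2) ≤ m) →
    LinearIndependent F (fun x : S => vec F m x.1)

/-- **LIN** (0.5 h, no hypotheses).  The number of lattice points of the strip on a line.
Let `c = j - P n`.  Then `DD P j n = P (j - 2 P c)`-like: `2P² n - (2P-1) j = P (2 P n - 2 j) + j =
j - 2 P c`.  So the strip (`i = 0`) is `0 ≤ j < N`, `2Pc ≤ j < 2Pc + 2P² k`.
Proof of the bound.  `L = max 0 (2Pc)`, `U = min (P N') (2Pc + 2P² k)`, both are multiples of `P`, and
`U - L ≤ P w`.  The map `x ↦ x.2` is injective on the points of the line, and `L ≤ P x.2 + c < U`; the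
integers `n` with `L ≤ P n + c < L + P w` are at most `w` (if `n₀` is the smallest one, they are in
`[n₀, n₀ + w)`, since `P (n₀ - 1) + c < L` gives `P (n₀ + w) + c ≥ L + P w`; or: they are in `Ico a (a + w)`,
`a = ⌈(L - c) / P⌉`). -/
def G_LIN : Prop :=
  ∀ (k P N' w : ℕ) (c : ℤ) (S : Finset (ℤ × ℤ)), 1 ≤ P →
    (∀ x ∈ S, Strip k P (P * N') 0 x ∧ x.1 - P * x.2 = c) →
    min (N' : ℤ) (2 * c + 2 * P * k) - max 0 (2 * c) ≤ w → S.card ≤ w

/-- the number of the line, first case. -/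
def idxA (s : ℕ) (c : ℤ) : ℕ :=
  if 0 ≤ c ∧ c ≤ s then c.toNat else if (s : ℤ) < c then (2 * c - s - 1).toNat
  else (s - 2 * c).toNat

/-- the number of the line, second case. -/
def idxB (s : ℕ) (c : ℤ) : ℕ :=
  if -s ≤ c ∧ c ≤ 0 then (-c).toNat else if 0 < c then (s + 2 * c).toNat
  else (-2 * c - s - 1).toNat

/-- **CTA** (0.8 h, may take `G_LIN` as hypothesis).  First case, `m = 2kP + s`, `N = P N'`,
`N' = 2kP + 2s + 1`.
Proof.  Let `x ∈ S`, `c = x.1 - P x.2`.  From the strip (see `G_LIN`): `2Pc ≤ x.1 < P N'` gives `2c < N'`,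
i.e. `c ≤ kP + s`, and `0 ≤ x.1 < 2Pc + 2P² k` gives `c > - P k`.  Now `idxA s c` is `c` for `0 ≤ c ≤ s`,
`2c - s - 1` for `s < c ≤ kP + s`, `s - 2c` for `- kP < c < 0`; in all the cases `< 2kP + s = m`.  Injective:
the values are `≤ s`; `s + 1, s + 3, ..`; `s + 2, s + 4, ..`.  The number of points of the line is by `G_LIN` at
most `min (N') (2c + 2kP) - max 0 (2c)`, which is `2kP` for `0 ≤ c ≤ s`, `N' - 2c = 2kP + 2s + 1 - 2c` for
`c > s`, `2kP + 2c` for `c < 0`; the sum with `idxA s c` is at most `m` (`omega`, products `k * P` as an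
atom). -/
def G_CTA : Prop :=
  ∀ (k P s : ℕ) (S : Finset (ℤ × ℤ)), 1 ≤ k → 1 ≤ P →
    (∀ x ∈ S, Strip k P (P * (2 * k * P + 2 * s + 1)) 0 x) →
    (∀ x ∈ S, idxA s (x.1 - P * x.2) < 2 * k * P + s) ∧
    (∀ x ∈ S, ∀ y ∈ S, idxA s (x.1 - P * x.2) = idxA s (y.1 - P * y.2) →
      x.1 - P * x.2 = y.1 - P * y.2) ∧
    (∀ x ∈ S, (S.filter fun y => y.1 - P * y.2 = x.1 - P * x.2).card +
      idxA s (x.1 - P * x.2) ≤ 2 * k * P + s)

/-- **CTB** (0.8 h, may take `G_LIN` as hypothesis).  Second case, `m + 1 + s = 2kP`, `N = P N'`,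
`N' + 2s + 1 = 2kP`.
Proof.  As `G_CTA`: `c = x.1 - P x.2` has `2c < N'`, i.e. `c < kP - s`, and `c > - kP`.  `idxB s c` is `-c` for
`-s ≤ c ≤ 0`, `s + 2c` for `c > 0`, `- 2c - s - 1` for `c < -s`; injective: the values are `≤ s`; `s + 2, s + 4, ..`;
`s + 1, s + 3, ..`.  Number of points of the line: `min N' (2c + 2kP) - max 0 (2c)` is `N' = m - s` for
`-s ≤ c ≤ 0`, `m - s - 2c` for `c > 0`, `2kP + 2c = m + 1 + s + 2c` for `c < -s`. -/
def G_CTB : Prop :=
  ∀ (k P m s N' : ℕ) (S : Finset (ℤ × ℤ)), 1 ≤ k → 1 ≤ P → m + 1 + s = 2 * k * P →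
    N' + 2 * s + 1 = 2 * k * P → (∀ x ∈ S, Strip k P (P * N') 0 x) →
    (∀ x ∈ S, idxB s (x.1 - P * x.2) < m) ∧
    (∀ x ∈ S, ∀ y ∈ S, idxB s (x.1 - P * x.2) = idxB s (y.1 - P * y.2) →
      x.1 - P * x.2 = y.1 - P * y.2) ∧
    (∀ x ∈ S, (S.filter fun y => y.1 - P * y.2 = x.1 - P * x.2).card +
      idxB s (x.1 - P * x.2) ≤ m)

/-- **PSL** (1.2 h, no hypotheses).  Power series over Laurent polynomials are a ring with
coefficients (`Δ` torsion is allowed; no order is needed).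
Proof.  `cf f (e, δ) = if 0 ≤ e then (PowerSeries.coeff e.toNat f) δ else 0` (an element of
`AddMonoidAlgebra F Δ` is a finitely supported function).  `PowerSeries.coeff_mul` (sum over the antidiagonal) and
`AddMonoidAlgebra.mul_apply` (or `mul_apply_antidiagonal`): the coefficient of `f g` at `(e, δ)` is the sum over
`e₁ + e₂ = e` and over the pairs `(δ₁, δ₂)` in the product of the supports with `δ₁ + δ₂ = δ`; a nonzero sum has a nonzero
term; under the uniqueness hypothesis of `mul` all the terms except `(α, β)` vanish. -/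
def G_PSL : Prop :=
  ∀ (F Δ : Type) [Field F] [AddCommGroup Δ],
    ∃ K : CoefRing F (PowerSeries (AddMonoidAlgebra F Δ)) (ℤ × Δ),
      ∀ (f : PowerSeries (AddMonoidAlgebra F Δ)) (e : ℕ) (δ : Δ),
        K.cf f ((e : ℤ), δ) = (PowerSeries.coeff e f).coeff δ

/-- the monomial `t^α ∏ x_i^(β i)` at nonzero complex numbers `t, x_i`. -/
noncomputable def mh {σ : Type} [Fintype σ] (t : ℂˣ) (x : σ → ℂˣ) :
    Multiplicative (ℤ × (σ → ℤ)) →* ℂ where
  toFun γ := ((t ^ (Multiplicative.toAdd γ).1 * ∏ i, x i ^ (Multiplicative.toAdd γ).2 i : ℂˣ) : ℂ)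
  map_one' := by simp
  map_mul' := by
    intro γ δ
    rw [← Units.val_mul]
    congr 1
    simp only [toAdd_mul, Prod.fst_add, Prod.snd_add, Pi.add_apply, zpow_add,
      Finset.prod_mul_distrib]
    exact mul_mul_mul_comm _ _ _ _

/-- evaluation of Laurent polynomials with rational coefficients. -/
noncomputable def evL {σ : Type} [Fintype σ] (t : ℂˣ) (x : σ → ℂˣ) :
    AddMonoidAlgebra ℚ (ℤ × (σ → ℤ)) →ₐ[ℚ] ℂ :=
  AddMonoidAlgebra.lift ℚ ℂ (ℤ × (σ → ℤ)) (mh t x)

/-- **SPC** (1 h, no hypotheses).  A nonzero Laurent polynomial with rational coefficients in `t` and the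
`x_i` stays nonzero for transcendental `t` and generic `x`.
Proof.  Let `S` be the (finite) support of `f` and `n : σ → ℕ` with `0 ≤ β i + n i` for all `(α, β) ∈ S`.
`p = ∑_((α, β) ∈ S) monomial (β + n) (f (α, β) * t^α)`.  For nonzero `x` we have `eval x p =
(∏ x_i^(n i)) * evL t x f`.  `p ≠ 0`: take `(α₀, β₀) ∈ S`; the coefficient of `p` at `β₀ + n` is
`∑_(α, (α, β₀) ∈ S) f (α, β₀) t^α` (`β ↦ β + n` is injective), which is not zero: multiply by a power of
`t` to make the exponents natural numbers; it is the value at `t` of a nonzero polynomial with rational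
coefficients, and `t` is transcendental. -/
def G_SPC : Prop :=
  ∀ (σ : Type) [Fintype σ] (t : ℂˣ), Transcendental ℚ (t : ℂ) →
    ∀ f : AddMonoidAlgebra ℚ (ℤ × (σ → ℤ)), f ≠ 0 → ∃ p : MvPolynomial σ ℂ, p ≠ 0 ∧
      ∀ x : σ → ℂˣ, evL t x f = 0 → MvPolynomial.eval (fun i => (x i : ℂ)) p = 0

end Pool.Agent.Helper3.FewP
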