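import Pool.Agent.Helper3.FewP.PSLZ
import Pool.Agent.Helper60.FewP.DET
import Pool.Agent.Helper31.FewP.MIN
import Pool.Agent.Helper48.FewP.UNI
import Pool.Agent.Helper15.FewP.LIN
import Pool.Agent.Helper57.FewP.CTA
import Pool.Agent.Helper73.FewP.CTB
import Pool.Agent.Helper89.FewP.GEN
import Pool.Agent.Helper90.FewP.STR
import Pool.Agent.Helper85.FewP.LIF

set_option autoImplicit false

namespace Pool.Agent.Helper3.FewP.All

open Pool.Agent.Helper3.FewP

theorem gen : G_GEN := Pool.Agent.Helper89.FewP.t Pool.Agent.Helper60.FewP.DET.t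
  Pool.Agent.Helper31.FewP.MIN.t

theorem lif : G_LIF := Pool.Agent.Helper85.FewP.t

theorem pslz : G_PSLZ := Pool.Agent.Helper3.FewP.PSLZ.t

theorem str : G_STR := Pool.Agent.Helper90.FewP.t Pool.Agent.Helper48.FewP.UNI.t
  (Pool.Agent.Helper57.FewP.CTA.t Pool.Agent.Helper15.FewP.t)
  (Pool.Agent.Helper73.FewP.t Pool.Agent.Helper15.FewP.t)

end Pool.Agent.Helper3.FewP.All
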