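import Pool.Agent.Helper3.FewP.Goals

/-!
# FewPoints (MP_d3128a_ag), block STRIP (helper3), second part: theta entries, generic
independence, specialisation, growth of the rank
-/

set_option autoImplicit false

namespace Pool.Agent.Helper3.FewP

open scoped BigOperators

/-- the exponent of `q`: `e_r(s) = r s + k s (s - 1) / 2`. -/
def ee (k r : ℕ) (s : ℤ) : ℤ := r * s + k * (s * (s - 1) / 2)

/-- the generic entry `∑_s g(r + k s) q^(e_r(s)) t^(-j s) x^(w (r + k s))`. -/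
noncomputable def gent {σ : Type} (k r : ℕ) (j : ℤ) (w : ℤ → σ → ℤ) (g : ℤ → ℚ) :
    PowerSeries (AddMonoidAlgebra ℚ (ℤ × (σ → ℤ))) :=
  PowerSeries.mk fun e => ∑ s ∈ Finset.Icc (-(e : ℤ) - 1) (e + 1),
    if ee k r s = e then AddMonoidAlgebra.single (-(j * s), w (r + k * s)) (g (r + k * s)) else 0

/-- the series `∑_s h s (r + k s) q^(e_r(s))` with complex coefficients. -/
noncomputable def sent (k r : ℕ) (h : ℤ → ℤ → ℂ) : PowerSeries ℂ :=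
  PowerSeries.mk fun e => ∑ s ∈ Finset.Icc (-(e : ℤ) - 1) (e + 1),
    if ee k r s = e then h s (r + k * s) else 0

/-- the field `E = ℂ((q))`. -/
abbrev EE : Type := LaurentSeries ℂ

/-- `ev_z (D^a theta_r)`, `theta_r = ∑_s χ^s q^(e_r(s)) z^(r + k s)`, `D = z d/dz`. -/
noncomputable def thz (k : ℕ) (χ z : ℂ) (a r : ℕ) : EE :=
  HahnSeries.ofPowerSeries ℤ ℂ (sent k r fun s n => χ ^ s * z ^ n * (n : ℂ) ^ a)

/-- the vector `(j^b ev_z (D^a theta_(j,r)))_(a+b<m)`, where `theta_(j,r)` has `χ t^j` in the place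
of `χ`. -/
noncomputable def vv (k m : ℕ) (χ t z : ℂ) (j r : ℕ) : Mon m → EE :=
  fun ab => (j : EE) ^ (ab.1.2 : ℕ) * thz k (χ * t ^ j) z ab.1.1 r

/-- **I1** (one point). -/
def G_I1 : Prop :=
  ∀ (k P m N s : ℕ) (χ t : ℂ), 1 ≤ k → 1 ≤ P → Adm k P m N s → χ ≠ 0 → Transcendental ℚ t →
    ∃ B : Set ℂ, B.Finite ∧ ∀ z, z ∉ B →
      LinearIndependent EE (fun jr : Fin N × Fin k => vv k m χ t z jr.1 jr.2)

/-- **I1R** (one point, `s (s+1) / 2` more levels: the rank is full). -/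
def G_I1R : Prop :=
  ∀ (k P m N s : ℕ) (χ t : ℂ), 1 ≤ k → 1 ≤ P → Adm k P m N s → χ ≠ 0 → Transcendental ℚ t →
    ∃ B : Set ℂ, B.Finite ∧ ∀ z, z ∉ B →
      Submodule.span EE (Set.range fun jr : Fin (N + s * (s + 1) / 2) × Fin k =>
        vv k m χ t z jr.1 jr.2) = ⊤

/-- **I2** (`k` points of multiplicity `u` at the heights `c_i`). -/
def G_I2 : Prop :=
  ∀ (k u N : ℕ) (χ t : ℂ) (B : Set ℂ), 1 ≤ k → 1 ≤ u → 2 * N = u * (u + 1) → χ ≠ 0 →
    Transcendental ℚ t → B.Finite →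
    ∃ z c : Fin k → ℂ, (∀ i, z i ∉ B ∧ z i ≠ 0 ∧ c i ≠ 0) ∧
      LinearIndependent EE (fun (jr : Fin N × Fin k) (y : Fin k × Mon u) =>
        HahnSeries.C (c y.1) ^ (jr.1 : ℕ) * vv k u χ t (z y.1) jr.1 jr.2 y.2)

/-! ### generic independence -/

/-- **GEN** (0.6 h; hypotheses `G_DET`, `G_MIN`). A minor of a matrix over `R` that is not zero.
Proof.  `G_MIN` for the vectors `c ↦ (x ↦ if p x = i0 c then a x c else 0)` gives `f : ι → ρ` with
nonzero determinant; `G_DET` for the square matrix `M (f x) c`, `p ∘ f`, `a (f x) c`. -/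
def G_GEN : Prop :=
  ∀ (F R Γ κ ι ρ : Type) [Field F] [CommRing R] [AddCommGroup Γ] [Fintype ι] [DecidableEq ι]
    [DecidableEq κ] [Fintype ρ] (K : CoefRing F R Γ) (ℓ : Γ →+ ℤ) (lam : κ → ℤ)
    (M : ρ → ι → R) (p : ρ → κ) (i0 : ι → κ) (γ : ι → Γ) (a : ρ → ι → F),
    (∀ x c δ, K.cf (M x c) δ ≠ 0 →
      (p x = i0 c ∧ δ = γ c) ∨ ℓ (γ c) + lam (i0 c) < ℓ δ + lam (p x)) →
    (∀ x c, p x = i0 c → K.cf (M x c) (γ c) = a x c) →
    LinearIndependent F (fun (c : ι) (x : ρ) => if p x = i0 c then a x c else 0) →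
    ∃ f : ι → ρ, (Matrix.of fun (x c : ι) => M (f x) c).det ≠ 0

/-- **BLI** (0.6 h, no hypotheses). Independence block by block.
Proof.  Let `∑_c w c • (..) = 0`.  For `i`, `ab` take `x` with `p x = i`, `μ x = ab`: the coordinate `x` is
`∑_(c, i0 c = i) w c * vec F m (pt c) ab = 0`; so `w c = 0` for all `c` with `i0 c = i`. -/
def G_BLI : Prop :=
  ∀ (F κ ι ρ : Type) [Field F] [Fintype ι] [DecidableEq κ] (m : ℕ) (p : ρ → κ) (μ : ρ → Mon m)
    (i0 : ι → κ) (pt : ι → ℤ × ℤ),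
    (∀ i ab, ∃ x, p x = i ∧ μ x = ab) →
    (∀ i, LinearIndependent F (fun c : {c : ι // i0 c = i} => vec F m (pt c.1))) →
    LinearIndependent F
      (fun (c : ι) (x : ρ) => if p x = i0 c then vec F m (pt c) (μ x) else 0)

/-- **STR** (0.8 h; hypotheses `G_UNI`, `G_CTA`, `G_CTB`). Independence for any set of points of a
strip.
Proof.  Let `S' = S.image (x ↦ (x.1, x.2 - i))`; `DD P j (n - i) = DD P j n - 2P² i`, so all the points of `S'`
are in `Strip k P N 0`.  `G_CTA` or `G_CTB` for `S'`; with `idx' c = idx (c + P i)` the hypotheses of `G_UNI`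
for `S` follow, because `x.1 - P (x.2 - i) = (x.1 - P x.2) + P i` and the translation is injective
(`Finset.card_image_of_injective`, `Finset.filter_image`). -/
def G_STR : Prop :=
  ∀ (F : Type) [Field F] [CharZero F] (k P m N s : ℕ) (i : ℤ) (S : Finset (ℤ × ℤ)), 1 ≤ k →
    1 ≤ P → Adm k P m N s → (∀ x ∈ S, Strip k P N i x) →
    LinearIndependent F (fun x : S => vec F m x.1)

/-- **ECF** (1 h, no hypotheses). The coefficients of the generic entry.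
Proof.  For `r < k` and `ee k r s = e`, `e : ℕ`: `|s| ≤ e + 1`.  (If `s ≥ 1` then `s (s-1) / 2 ≥ s - 1`; if
`s = - σ`, `σ ≥ 1`, then `s (s-1) / 2 = σ (σ+1) / 2 ≥ σ` and `ee = - r σ + k (..)`, `r ≤ k - 1`, so
`ee ≥ σ`.)  So the sum in `gent` is over all `s` with `ee k r s = e`.  (1) a nonzero sum has a nonzero
term.  (2) the terms of index `s' ≠ s` have `r + k s' ≠ r + k s`, so `w (r + k s') ≠ w (r + k s)`
(`AddMonoidAlgebra.coeff_single_apply`).  (3) is the bound. -/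
def G_ECF : Prop :=
  ∀ (σ : Type) (k r : ℕ) (j : ℤ) (w : ℤ → σ → ℤ) (g : ℤ → ℚ), r < k →
    (∀ (e : ℕ) (δ : ℤ × (σ → ℤ)), (PowerSeries.coeff e (gent k r j w g)).coeff δ ≠ 0 →
      ∃ s : ℤ, ee k r s = e ∧ δ = (-(j * s), w (r + k * s))) ∧
    (Function.Injective w → ∀ (e : ℕ) (s : ℤ), ee k r s = e →
      (PowerSeries.coeff e (gent k r j w g)).coeff (-(j * s), w (r + k * s)) = g (r + k * s)) ∧
    (∀ s : ℤ, 0 ≤ ee k r s ∧ -(ee k r s) - 1 ≤ s ∧ s ≤ ee k r s + 1)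

/-- **EVM** (0.5 h, no hypotheses). Specialisation of the generic entry.
Proof.  `ext e`; `PowerSeries.coeff_map`, `map_sum`, `apply_ite`, `evL` of a `single` is
`AddMonoidAlgebra.lift_single`. -/
def G_EVM : Prop :=
  ∀ (σ : Type) [Fintype σ] (t : ℂˣ) (x : σ → ℂˣ) (k r : ℕ) (j : ℤ) (w : ℤ → σ → ℤ) (g : ℤ → ℚ),
    PowerSeries.map (evL t x : AddMonoidAlgebra ℚ (ℤ × (σ → ℤ)) →+* ℂ) (gent k r j w g) =
      sent k r (fun s n => ((t ^ (-(j * s)) * ∏ i, x i ^ (w n i) : ℂˣ) : ℂ) * (g n : ℂ))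

/-- **LIF** (0.3 h, no hypotheses). Independence from one minor.
Proof.  A relation `∑_c w c • v c = 0` restricted to the rows `f x` says `(matrix).mulVec w = 0`;
`Matrix.eq_zero_of_mulVec_eq_zero`. -/
def G_LIF : Prop :=
  ∀ (F ρ ι : Type) [Field F] [Fintype ι] [DecidableEq ι] (v : ι → ρ → F) (f : ι → ρ),
    (Matrix.of fun (x c : ι) => v c (f x)).det ≠ 0 → LinearIndependent F v

/-- **PSLZ** (1.2 h, no hypotheses): `G_PSL` with the vanishing at negative exponents; same proof. -/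
def G_PSLZ : Prop :=
  ∀ (F Δ : Type) [Field F] [AddCommGroup Δ],
    ∃ K : CoefRing F (PowerSeries (AddMonoidAlgebra F Δ)) (ℤ × Δ),
      (∀ (f : PowerSeries (AddMonoidAlgebra F Δ)) (e : ℕ) (δ : Δ),
        K.cf f ((e : ℤ), δ) = (PowerSeries.coeff e f).coeff δ) ∧
      ∀ (f : PowerSeries (AddMonoidAlgebra F Δ)) (e : ℤ) (δ : Δ), e < 0 → K.cf f (e, δ) = 0

/-- the functional evaluated on the exponents of the entry `(i; j, r)`, term `s`. -/
def phi {σ κ : Type} (ℓ : ℤ × (ℤ × (σ → ℤ)) →+ ℤ) (lam : κ → ℤ) (w : κ → ℤ → ℤ → σ → ℤ)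
    (k : ℕ) (j : ℤ) (r : ℕ) (i : κ) (s : ℤ) : ℤ :=
  ℓ (ee k r s, (-(j * s), w i j (r + k * s))) + lam i

/-- the family of vectors after specialisation. -/
noncomputable def fam {σ κ ρ : Type} [Fintype σ] (k N m : ℕ) (p : ρ → κ) (μ : ρ → Mon m)
    (w : κ → ℤ → ℤ → σ → ℤ) (t : ℂˣ) (x : σ → ℂˣ) (c : Fin N × Fin k) (y : ρ) : EE :=
  HahnSeries.ofPowerSeries ℤ ℂ (sent k c.2 fun s n =>
    ((t ^ (-(((c.1 : ℕ) : ℤ) * s)) * ∏ i, x i ^ (w (p y) ((c.1 : ℕ) : ℤ) n i) : ℂˣ) : ℂ) *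
      ((n : ℂ) ^ ((μ y).1.1 : ℕ) * (((c.1 : ℕ) : ℤ) : ℂ) ^ ((μ y).1.2 : ℕ)))

/-- **IND** (1.2 h; hypotheses `G_GEN`, `G_BLI`, `G_ECF`, `G_EVM`, `G_LIF`, `G_SPC`, `G_PSLZ`). The general
theorem of independence.
Proof.  `F = ℚ`, `R = PowerSeries (AddMonoidAlgebra ℚ (ℤ × (σ → ℤ)))`, `K` from `G_PSLZ`.
`M y c = gent k r j (w (p y) j) (n ↦ n^a j^b)`, `c = (j, r)`, `μ y = (a, b)`; `γ c = (ee k r (s0 c), (-(j s0 c),
w (i0 c) j (r + k s0 c)))`.  If `K.cf (M y c) δ ≠ 0`, `δ = (e, δ')`: `0 ≤ e` by the second part of `G_PSLZ`, and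
by `G_ECF` (1) `δ = (ee k r s, (-(j s), w (p y) j (r + k s)))` for some `s`; if `p y = i0 c`
and `s = s0 c` it is `γ c`, otherwise the hypothesis on the minimum applies.  `K.cf (M y c) (γ c) = n^a j^b` for `p y = i0 c` by `G_ECF` (2), (3).  `G_BLI` (with
`pt c = (j, r + k s0 c)`) gives the last hypothesis of `G_GEN`.  So some minor `Δ = det (M (f x) c)` is not
zero; some coefficient `Δ_e ≠ 0`; `G_SPC` gives `pol`.  For `x` with `eval x pol ≠ 0`: `evL t x Δ_e ≠ 0`, so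
`PowerSeries.map (evL t x) Δ ≠ 0`, which is `det (map (M (f x) c))` (`RingHom.map_det`); its image under the
injective `HahnSeries.ofPowerSeries` is not zero; entries by `G_EVM`; `G_LIF`. -/
def G_IND : Prop :=
  ∀ (σ κ ρ : Type) [Fintype σ] [DecidableEq κ] [Fintype ρ] (k N m : ℕ) (p : ρ → κ)
    (μ : ρ → Mon m) (w : κ → ℤ → ℤ → σ → ℤ) (ℓ : ℤ × (ℤ × (σ → ℤ)) →+ ℤ) (lam : κ → ℤ)
    (i0 : Fin N × Fin k → κ) (s0 : Fin N × Fin k → ℤ),
    (∀ i ab, ∃ y, p y = i ∧ μ y = ab) → (∀ i j, Function.Injective (w i j)) →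
    (∀ (c : Fin N × Fin k) (i : κ) (s : ℤ), (i ≠ i0 c ∨ s ≠ s0 c) →
      phi ℓ lam w k ((c.1 : ℕ) : ℤ) c.2 (i0 c) (s0 c) < phi ℓ lam w k ((c.1 : ℕ) : ℤ) c.2 i s) →
    (∀ i, LinearIndependent ℚ (fun c : {c : Fin N × Fin k // i0 c = i} =>
      vec ℚ m (((c.1.1 : ℕ) : ℤ), ((c.1.2 : ℕ) : ℤ) + k * s0 c.1))) →
    ∀ t : ℂˣ, Transcendental ℚ (t : ℂ) → ∃ pol : MvPolynomial σ ℂ, pol ≠ 0 ∧
      ∀ x : σ → ℂˣ, MvPolynomial.eval (fun i => (x i : ℂ)) pol ≠ 0 →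
        LinearIndependent EE (fam k N m p μ w t x)

end Pool.Agent.Helper3.FewP
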