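import Pool.Agent.Helper3.FewP.Goals2

/-!
# FewPoints (MP_d3128a_ag), block STRIP (helper3), third part: the weights, `I1`, `I2`
-/

set_option autoImplicit false

namespace Pool.Agent.Helper3.FewP

open scoped BigOperators

/-- **CV1** (0.5 h, no hypotheses). The minimum over `s` of the functional for one point.
Proof.  `ee k r (s0 + d) - ee k r s0 = d (r + k s0) + k (d (d-1) / 2)` (from `2 * (s (s-1) / 2) = s (s-1)`).  With
`D = DD P j (r + k s0)` the difference of the two sides at `s = s0 + d` is `k d (2 D + 2P² k (d-1) + 1)`.  For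
`d ≥ 1` both factors are positive; for `d ≤ -1`, `2 D + 2P² k (d-1) + 1 ≤ 2 (2P² k - 1) - 4P² k + 1 < 0`. -/
def G_CV1 : Prop :=
  ∀ (k P r : ℕ) (j s0 : ℤ), 1 ≤ k → 1 ≤ P → 0 ≤ DD P j (r + k * s0) →
    DD P j (r + k * s0) < 2 * (P : ℤ) ^ 2 * k → ∀ s : ℤ, s ≠ s0 →
      4 * (k : ℤ) * (P : ℤ) ^ 2 * ee k r s0 + 2 * (k : ℤ) * (2 * P - 1) * (-(j * s0)) +
          (r + k * s0) <
        4 * (k : ℤ) * (P : ℤ) ^ 2 * ee k r s + 2 * (k : ℤ) * (2 * P - 1) * (-(j * s)) +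
          (r + k * s)

/-- the functional for `k` points: point `i`, column `(j, r)`, term `s`. -/
def FF (k P r : ℕ) (j i s : ℤ) : ℤ :=
  16 * (k : ℤ) ^ 2 * (P : ℤ) ^ 4 * ee k r s +
    8 * (P : ℤ) ^ 2 * (k : ℤ) ^ 2 * (2 * P - 1) * (-(j * s)) +
    4 * (P : ℤ) ^ 2 * (k - i) * (r + k * s) + 2 * i * (2 * P - 1) * j +
    (2 * (P : ℤ) ^ 2 * i * (i + 1) - i)

/-- **CV2** (0.8 h, no hypotheses). The minimum over `(i, s)` of the functional for `k` points.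
Proof.  Let `D = DD P j (r + k s0)`.  (1) `FF i (s0 + d) - FF i s0 = 4P² k d (2 k D + 2P² k² (d-1) + k - i)`
(as in `G_CV1`); for `d ≥ 1` this is positive since `D ≥ 0`, `i < k`; for `d ≤ -1` the bracket is at most
`2 k (2P² k - 1) - 4P² k² + k - i = - k - i < 0` since `D < 2P² (i0 + 1) ≤ 2P² k`, so the product is positive.
(2) `FF i s0 - FF i0 s0 = (i - i0) (2P² (i + i0 + 1) - 1 - 2 D)`; for `i > i0` the bracket is at least
`4P² (i0 + 1) - 1 - 2 D > 0`, for `i < i0` it is at most `4P² i0 - 1 - 2 D < 0`.  Together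
`FF i s ≥ FF i s0 ≥ FF i0 s0` with strict inequality in the first if `s ≠ s0`, in the second if `i ≠ i0`. -/
def G_CV2 : Prop :=
  ∀ (k P r : ℕ) (j i0 s0 : ℤ), 1 ≤ k → 1 ≤ P → 0 ≤ i0 → i0 < k →
    2 * (P : ℤ) ^ 2 * i0 ≤ DD P j (r + k * s0) → DD P j (r + k * s0) < 2 * (P : ℤ) ^ 2 * (i0 + 1) →
    ∀ i s : ℤ, 0 ≤ i → i < k → (i ≠ i0 ∨ s ≠ s0) → FF k P r j i0 s0 < FF k P r j i s

/-- **SZ** (0.3 h, no hypotheses). Existence of the minimum.
Proof.  `DD P j (r + k s) = A + 2P² k s`, `A = 2P² r - (2P-1) j`; `s0 = - (A / (2P² k))`, `Int.emod`; and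
`i0 = DD / (2P²)`. -/
def G_SZ : Prop :=
  ∀ (k P r : ℕ) (j : ℤ), 1 ≤ k → 1 ≤ P → ∃ (s0 : ℤ) (i0 : Fin k),
    2 * (P : ℤ) ^ 2 * ((i0 : ℕ) : ℤ) ≤ DD P j (r + k * s0) ∧
    DD P j (r + k * s0) < 2 * (P : ℤ) ^ 2 * (((i0 : ℕ) : ℤ) + 1)

/-- **BK1** (0.5 h; hypothesis `G_STR`). The block of one point.
Proof.  The points `(j, r + k s0)` are different for different `(j, r)` (`r < k` is the residue) and are in
`Strip k P N 0`; `G_STR` for their set, and `LinearIndependent.comp` with the injective map. -/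
def G_BK1 : Prop :=
  ∀ (k P m N s : ℕ) (s0 : Fin N × Fin k → ℤ), 1 ≤ k → 1 ≤ P → Adm k P m N s →
    (∀ c, 0 ≤ DD P ((c.1 : ℕ) : ℤ) (((c.2 : ℕ) : ℤ) + k * s0 c) ∧
      DD P ((c.1 : ℕ) : ℤ) (((c.2 : ℕ) : ℤ) + k * s0 c) < 2 * (P : ℤ) ^ 2 * k) →
    LinearIndependent ℚ (fun c : Fin N × Fin k =>
      vec ℚ m (((c.1 : ℕ) : ℤ), ((c.2 : ℕ) : ℤ) + k * s0 c))

/-- **BK2** (0.5 h; hypothesis `G_STR`). The blocks of `k` points.
Proof.  As `G_BK1`: the points of the block `i` are in `Strip 1 P N i`; `G_STR` with `k = 1`. -/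
def G_BK2 : Prop :=
  ∀ (k P u N : ℕ) (i0 : Fin N × Fin k → Fin k) (s0 : Fin N × Fin k → ℤ), 1 ≤ k → 1 ≤ P →
    Adm 1 P u N 0 →
    (∀ c, 2 * (P : ℤ) ^ 2 * ((i0 c : ℕ) : ℤ) ≤
        DD P ((c.1 : ℕ) : ℤ) (((c.2 : ℕ) : ℤ) + k * s0 c) ∧
      DD P ((c.1 : ℕ) : ℤ) (((c.2 : ℕ) : ℤ) + k * s0 c) <
        2 * (P : ℤ) ^ 2 * (((i0 c : ℕ) : ℤ) + 1)) →
    ∀ i : Fin k, LinearIndependent ℚ (fun c : {c : Fin N × Fin k // i0 c = i} =>
      vec ℚ u (((c.1.1 : ℕ) : ℤ), ((c.1.2 : ℕ) : ℤ) + k * s0 c.1))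

/-- the functional for one point. -/
def ell1 (k P : ℕ) : ℤ × (ℤ × (Unit → ℤ)) →+ ℤ where
  toFun δ := 4 * (k : ℤ) * (P : ℤ) ^ 2 * δ.1 + 2 * (k : ℤ) * (2 * P - 1) * δ.2.1 + δ.2.2 ()
  map_zero' := by simp
  map_add' x y := by simp only [Prod.fst_add, Prod.snd_add, Pi.add_apply]; ring

/-- the functional for `k` points. -/
def ell2 (k P : ℕ) : ℤ × (ℤ × (Fin k ⊕ Fin k → ℤ)) →+ ℤ where
  toFun δ := 16 * (k : ℤ) ^ 2 * (P : ℤ) ^ 4 * δ.1 +
    8 * (P : ℤ) ^ 2 * (k : ℤ) ^ 2 * (2 * P - 1) * δ.2.1 +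
    ((∑ i : Fin k, 4 * (P : ℤ) ^ 2 * (k - ((i : ℕ) : ℤ)) * δ.2.2 (Sum.inl i)) +
      ∑ i : Fin k, 2 * ((i : ℕ) : ℤ) * (2 * P - 1) * δ.2.2 (Sum.inr i))
  map_zero' := by simp
  map_add' x y := by
    simp only [Prod.fst_add, Prod.snd_add, Pi.add_apply, mul_add, Finset.sum_add_distrib]
    ring

/-- exponents of `z` for one point. -/
def w1 : Unit → ℤ → ℤ → Unit → ℤ := fun _ _ n _ => n

/-- exponents of the `z_i` and of the `c_i` for `k` points. -/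
def w2 (k : ℕ) : Fin k → ℤ → ℤ → Fin k ⊕ Fin k → ℤ :=
  fun i j n => Sum.elim (Pi.single i n) (Pi.single i j)

/-- **FM1** (0.5 h, no hypotheses). The specialised family for one point is `vv`.
Proof.  `(t⁻¹)^(-(j s)) = (1 * t^j)^s`, `∏ i : Unit, x^n = x^n`; `sent k r (fun s n => h s n * a) = C a * sent k r h`
coefficient by coefficient, and `ofPowerSeries` is a ring homomorphism, `(j : ℂ)^b` goes to `(j : EE)^b`
(`map_natCast`, `HahnSeries.ofPowerSeries_C`). -/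
def G_FM1 : Prop :=
  ∀ (k N m : ℕ) (t x : ℂˣ) (c : Fin N × Fin k) (y : Mon m),
    fam k N m (fun _ : Mon m => ()) id w1 t⁻¹ (fun _ => x) c y =
      vv k m 1 (t : ℂ) (x : ℂ) c.1 c.2 y

/-- **FM2** (0.6 h, no hypotheses). The specialised family for `k` points.
Proof.  As `G_FM1`; `∏` over `Fin k ⊕ Fin k` is `z_i^n * c_i^j` (`Fintype.prod_sum_type`, `Pi.single`). -/
def G_FM2 : Prop :=
  ∀ (k N u : ℕ) (t : ℂˣ) (z h : Fin k → ℂˣ) (c : Fin N × Fin k) (y : Fin k × Mon u),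
    fam k N u (Prod.fst : Fin k × Mon u → Fin k) Prod.snd (w2 k) t⁻¹ (Sum.elim z h) c y =
      HahnSeries.C ((h y.1 : ℂˣ) : ℂ) ^ (c.1 : ℕ) *
        vv k u 1 (t : ℂ) ((z y.1 : ℂˣ) : ℂ) c.1 c.2 y.2

/-- **I1A** (1 h; hypotheses `G_IND`, `G_SZ`, `G_CV1`, `G_BK1`, `G_FM1`). `I1` for `χ = 1`.
Proof.  `t ≠ 0`; `t⁻¹` is transcendental.  `G_IND` with `σ = κ = Unit`, `ρ = Mon m`, `p = ()`, `μ = id`, `w = w1`,
`ℓ = ell1 k P`, `lam = 0`, `i0 = ()`, `s0` from `G_SZ` (`0 ≤ 2P² i0 ≤ DD < 2P² (i0 + 1) ≤ 2P² k`); the minimum is `G_CV1`,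
the block is `G_BK1` (restricted to the subtype).  `pol ≠ 0` in `MvPolynomial Unit ℂ`: the set `B` of the `z` with
`z = 0` or `eval (fun _ => z) pol = 0` is finite (`MvPolynomial.pUnitAlgEquiv` to `Polynomial ℂ`, or
`MvPolynomial.funext_set` for an infinite set of zeros).  `G_FM1`. -/
def G_I1A : Prop :=
  ∀ (k P m N s : ℕ) (t : ℂ), 1 ≤ k → 1 ≤ P → Adm k P m N s → Transcendental ℚ t →
    ∃ B : Set ℂ, B.Finite ∧ ∀ z, z ∉ B →
      LinearIndependent EE (fun jr : Fin N × Fin k => vv k m 1 t z jr.1 jr.2)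

/-- **I2A** (1.2 h; hypotheses `G_IND`, `G_SZ`, `G_CV2`, `G_BK2`, `G_FM2`). `I2` for `χ = 1`.
Proof.  `P = (u + 1) / 2`: if `u = 2P` then `N = P (2P + 1)`, if `u + 1 = 2P` then `N + P = P * 2P`; so
`Adm 1 P u N 0`.  `G_IND` with `σ = Fin k ⊕ Fin k`, `κ = Fin k`, `ρ = Fin k × Mon u`, `w = w2 k`, `ℓ = ell2 k P`,
`lam i = 2P² i (i + 1) - i`, `s0`, `i0` from `G_SZ`; `phi (ell2 k P) lam (w2 k) k j r i s = FF k P r j i s`
(`Pi.single`), `G_CV2`, `G_BK2`.  `pol ≠ 0`: by `MvPolynomial.funext_set` there is a point with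
`x (inl i) ∈ ℂ \ (B ∪ {0})`, `x (inr i) ∈ ℂ \ {0}` (infinite sets) and `eval x pol ≠ 0`.  `G_FM2`. -/
def G_I2A : Prop :=
  ∀ (k u N : ℕ) (t : ℂ) (B : Set ℂ), 1 ≤ k → 1 ≤ u → 2 * N = u * (u + 1) →
    Transcendental ℚ t → B.Finite →
    ∃ z c : Fin k → ℂ, (∀ i, z i ∉ B ∧ z i ≠ 0 ∧ c i ≠ 0) ∧
      LinearIndependent EE (fun (jr : Fin N × Fin k) (y : Fin k × Mon u) =>
        HahnSeries.C (c y.1) ^ (jr.1 : ℕ) * vv k u 1 t (z y.1) jr.1 jr.2 y.2)

/-- **CHI** (0.5 h, no hypotheses). Removing `χ`.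
Proof.  With `n = r + k s`: `(κ z)^n = κ^r χ^s z^n`, so `(1 * t^j)^s (κ z)^n = κ^r (χ t^j)^s z^n`, term by term. -/
def G_CHI : Prop :=
  ∀ (k m : ℕ) (χ κ t z : ℂ) (j r : ℕ), κ ≠ 0 → κ ^ k = χ →
    vv k m 1 t (κ * z) j r = (HahnSeries.C (κ ^ r) : EE) • vv k m χ t z j r

/-- **I1B** (0.5 h): `I1` from `I1A` and `CHI`.
Proof.  `κ` with `κ^k = χ` (`IsAlgClosed.exists_pow_nat_eq`).  `B' = {z | κ z ∈ B}` is finite.  The vectors
`vv χ t z j r` are nonzero multiples of the vectors `vv 1 t (κ z) j r` (`LinearIndependent.units_smul`). -/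
def G_I1B : Prop := G_I1A → G_CHI → G_I1

/-- **I2B** (0.6 h): `I2` from `I2A` and `CHI`.
Proof.  As `G_I1B`; `I2A` for the set `κ • B`, `z_i = κ⁻¹ z'_i`. -/
def G_I2B : Prop := G_I2A → G_CHI → G_I2

/-! ### growth of the rank, `I1R` -/

/-- evaluation of Laurent polynomials at `z`. -/
noncomputable def evz (z : ℂˣ) : AddMonoidAlgebra ℂ ℤ →ₐ[ℂ] ℂ :=
  AddMonoidAlgebra.lift ℂ ℂ ℤ ((Units.coeHom ℂ).comp (zpowersHom ℂˣ z))

/-- **LPZ** (0.5 h, no hypotheses). A nonzero Laurent polynomial has finitely many zeros.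
Proof.  Multiply by `z^n`: a nonzero polynomial. -/
def G_LPZ : Prop :=
  ∀ f : AddMonoidAlgebra ℂ ℤ, f ≠ 0 →
    {z : ℂ | ∃ h : z ≠ 0, evz (Units.mk0 z h) f = 0}.Finite

/-- **GRK** (1.5 h; hypotheses `G_LPZ`, `G_MIN`). The rank is constant outside a finite set.
Proof.  Let `R z` be the dimension of the span for a unit `z`, `n` its maximum (it is at most `|ι|`), attained
at `z₁`.  There are `n` linearly independent vectors among the `v_c (z₁)` (`exists_linearIndependent'`), with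
`n` rows and nonzero minor (`G_MIN`).  The minor is the image of `Δ = det (A c y) ∈ PowerSeries (AddMonoidAlgebra ℂ ℤ)`
under `ofPowerSeries ∘ map (evz z₁)` (`RingHom.map_det`), so some coefficient `Δ_e` is not zero.  For all units
`z` with `evz z Δ_e ≠ 0` (all but finitely many, `G_LPZ`) the same minor at `z` is not zero, so `n ≤ R z`, and
`R z ≤ n` by the choice of `n`. -/
def G_GRK : Prop :=
  ∀ (ι ρ : Type) [Fintype ι] [Fintype ρ] (A : ι → ρ → PowerSeries (AddMonoidAlgebra ℂ ℤ)),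
    ∃ (B : Set ℂ) (n : ℕ), B.Finite ∧ ∀ z : ℂˣ, (z : ℂ) ∉ B →
      Module.finrank EE (Submodule.span EE (Set.range fun (c : ι) (y : ρ) =>
        HahnSeries.ofPowerSeries ℤ ℂ
          (PowerSeries.map (evz z : AddMonoidAlgebra ℂ ℤ →+* ℂ) (A c y)))) = n

/-- **LEN** (0.5 h, no hypotheses). The entries as power series over Laurent polynomials in `z`.
Proof.  `A (j, r) (a, b) = mk fun e => ∑ s ∈ Icc, if ee k r s = e then single (r + k s) ((χ t^j)^s n^a j^b)`. -/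
def G_LEN : Prop :=
  ∀ (k m N : ℕ) (χ t : ℂ), ∃ A : Fin N × Fin k → Mon m → PowerSeries (AddMonoidAlgebra ℂ ℤ),
    ∀ (z : ℂˣ) (c : Fin N × Fin k) (y : Mon m),
      HahnSeries.ofPowerSeries ℤ ℂ
        (PowerSeries.map (evz z : AddMonoidAlgebra ℂ ℤ →+* ℂ) (A c y)) =
      vv k m χ t (z : ℂ) c.1 c.2 y

/-- **TRA** (0.8 h, no hypotheses). Translation of the levels.
Proof.  `(U f) (a, b) = ∑_(b' ≤ b) choose b b' * f (a, b')`, e.g. `∑ x : Mon m, if x.1.1 = y.1.1 then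
choose y.1.2 x.1.2 * f x else 0`.  `(χ t^j)^s (τ z)^n = τ^r (χ t^(j+1))^s z^n` for `n = r + k s`, so
`thz k (χ t^j) (τ z) a r = C (τ^r) * thz k (χ t^(j+1)) z a r`; and `∑_(b') choose b b' j^b' = (j + 1)^b`. -/
def G_TRA : Prop :=
  ∀ (k m : ℕ), ∃ U : (Mon m → EE) →ₗ[EE] (Mon m → EE),
    ∀ (χ t τ z : ℂ) (j r : ℕ), τ ≠ 0 → τ ^ k = t →
      U (vv k m χ t (τ * z) j r) = (HahnSeries.C (τ ^ r) : EE) • vv k m χ t z (j + 1) r

/-- **EXP** (0.8 h, no hypotheses). Independence of exponential polynomials.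
Proof.  Induction on `∑_(s ∈ S) (if p s = 0 then 0 else natDegree (p s) + 1)`.  If some `p s₀ ≠ 0` put
`q s = t^s * (p s)(X + 1) - t^(s₀) * p s`; the `q s` satisfy the same relation (the relation at `j + 1` minus
`t^(s₀)` times the relation at `j`).  For `s ≠ s₀`, `q s` has the degree of `p s` (leading coefficient times
`t^s - t^(s₀) ≠ 0`); `q s₀` is zero or has smaller degree.  So all `q s = 0`; hence `p s = 0` for `s ≠ s₀` and
`p s₀ (X + 1) = p s₀`, so `p s₀` is a constant, and the relation at `j = 0` says it is zero. -/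
def G_EXP : Prop :=
  ∀ (S : Finset ℤ) (t : ℂ) (p : ℤ → Polynomial ℂ), t ≠ 0 → (∀ n : ℤ, t ^ n = 1 → n = 0) →
    (∀ j : ℕ, ∑ s ∈ S, (t ^ s) ^ j * (p s).eval (j : ℂ) = 0) → ∀ s ∈ S, p s = 0

/-- **TOT** (1.5 h; hypothesis `G_EXP`). No relation for all levels together.
Proof.  Suppose `lam ≠ 0`; let `o : ℤ` be the smallest order of the nonzero `lam ab` (so
`(lam ab).coeff i = 0` for `i < o` and all `ab`, `(lam ab₀).coeff o ≠ 0` for some `ab₀`).  Fix `r < k`, `s₀ ∈ ℤ`,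
`e₀ = ee k r s₀ ≥ 0`.  The coefficient at `q^(o + e₀)` of the relation for `(j, r)` is
`∑_(ab) j^b ∑_(s, ee k r s ≤ e₀) (lam ab).coeff (o + e₀ - ee k r s) (χ t^j)^s z^n n^a = 0`, `n = r + k s`,
i.e. `∑_s (t^s)^j (p s)(j) = 0` with `p s = χ^s z^n ∑_(ab) (lam ab).coeff (o + e₀ - ee k r s) n^a X^b`, `s` in the
finite set of the `s` with `ee k r s ≤ e₀` (contained in `[-e₀ - 1, e₀ + 1]`).  By `G_EXP` `p s₀ = 0`, so
`∑_(ab) (lam ab).coeff o * n₀^a X^b = 0`, `n₀ = r + k s₀`; these `n₀` are all integers, so for each `b` the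
polynomial `∑_a (lam (a,b)).coeff o Y^a` has infinitely many zeros and is zero: contradiction. -/
def G_TOT : Prop :=
  ∀ (k m : ℕ) (χ t z : ℂ) (lam : Mon m → EE), 1 ≤ k → χ ≠ 0 → z ≠ 0 → t ≠ 0 →
    (∀ n : ℤ, t ^ n = 1 → n = 0) →
    (∀ j r : ℕ, r < k → ∑ ab, lam ab * vv k m χ t z j r ab = 0) → lam = 0

/-- the span of the levels `j < N`. -/
noncomputable def VV (k m : ℕ) (χ t z : ℂ) (N : ℕ) : Submodule EE (Mon m → EE) :=
  Submodule.span EE (Set.range fun jr : Fin N × Fin k => vv k m χ t z jr.1 jr.2)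

/-- **TSP** (0.8 h; hypothesis `G_TOT`). Finitely many levels span everything.
Proof.  `VV N` is increasing in `N` in a finite dimensional space, so it is constant from some `N` on
(dimension is bounded).  If `VV N ≠ ⊤` there is a nonzero linear functional which vanishes on `VV N`, so on all the
`vv j r` (`Submodule.exists_le_ker_of_lt_top`); it is `f ↦ ∑_(ab) lam ab * f ab` (`lam ab` its value at
`Pi.single ab 1`), and `lam = 0` by `G_TOT`: contradiction. -/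
def G_TSP : Prop :=
  ∀ (k m : ℕ) (χ t z : ℂ), 1 ≤ k → χ ≠ 0 → z ≠ 0 → t ≠ 0 → (∀ n : ℤ, t ^ n = 1 → n = 0) →
    ∃ N : ℕ, VV k m χ t z N = ⊤

/-- **GRO** (1.3 h; hypotheses `G_GRK`, `G_LEN`, `G_TRA`, `G_TSP`). Strict growth of the generic rank.
Proof.  `rk N` is the number of `G_GRK` for the matrix of `G_LEN` (add `0` to the finite set).  Let
`rk (N + 1) = rk N`; let `B` be the union of the two finite sets for `N` and `N + 1` (with `0`).  Let `τ^k = t`,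
`τ ≠ 0`.  The set of the `z` with `τ^i z ∈ B` for some `i` is countable, so there is `z₁` with `τ^i z₁ ∉ B` for all
`i`.  Claim: `VV (N + i) (τ^l z₁) = VV N (τ^l z₁)` for all `i, l`, by induction on `i`.  `i = 1`: the inclusion and the
equality of the dimensions.  Step: with `U` of `G_TRA` and `z = τ^l z₁`,
`VV (N + i + 1) z = VV 1 z + U (VV (N + i) (τ z)) = VV 1 z + U (VV N (τ z)) = VV (N + 1) z = VV N z`
(`vv z (j + 1) r` is a nonzero multiple of `U (vv (τ z) j r)`).  By `G_TSP` `VV N' z₁ = ⊤` for some `N'`; so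
`VV N z₁ = ⊤` (`VV` is increasing), and `rk N = finrank = card (Mon m)`. -/
def G_GRO : Prop :=
  ∀ (k m : ℕ) (χ t : ℂ), 1 ≤ k → χ ≠ 0 → t ≠ 0 → (∀ n : ℤ, t ^ n = 1 → n = 0) →
    ∃ rk : ℕ → ℕ, (∀ N, ∃ B : Set ℂ, B.Finite ∧ ∀ z, z ∉ B →
      Module.finrank EE (VV k m χ t z N) = rk N) ∧
      ∀ N, rk (N + 1) = rk N → rk N = Fintype.card (Mon m)

/-- **CRD** (0.4 h, no hypotheses). The number of monomials. -/
def G_CRD : Prop := ∀ m : ℕ, 2 * Fintype.card (Mon m) = m * (m + 1)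

/-- **I1S** (1 h): the full rank from `GRO`, `I1`, `CRD`.
Proof.  `rk` is increasing and `≤ card (Mon m)` (compare at a `z` outside finitely many finite sets; `ℂ` is
infinite).  `rk N = k N` by `G_I1` (`finrank_span_eq_card`); `2 k N + s (s + 1) = m (m + 1) = 2 card (Mon m)` in both
cases of `Adm`.  By induction on `i`: `min (card (Mon m)) (k N + i) ≤ rk (N + i)`; so
`rk (N + s (s + 1) / 2) = card (Mon m)`, and `VV = ⊤` for all `z` outside the finite set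
(`Submodule.eq_top_of_finrank_eq`).  `t` transcendental is not zero and is not a root of unity. -/
def G_I1S : Prop := G_GRO → G_I1 → G_CRD → G_I1R

end Pool.Agent.Helper3.FewP
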