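import Pool.Agent.Helper3.FewP.Goals2
import Pool.Agent.Helper97.Tate.Goals

/-!
# FewPoints (MP_d3128a_ag): sub-goals of the block goals S_STR, S_BLK of helper97 (helper3)

`S_BLK` from `G_GEN`, `G_LIF`, `G_PSLZ` (proved, Goals2) and the goals below.
-/

set_option autoImplicit false

noncomputable section

namespace Pool.Agent.Helper3.FewP

open scoped BigOperators
open Pool.Agent.Helper97.Tate

/-- exponents of `z`, `x_i`, `y_i`. -/
abbrev GG (b : ℕ) : Type := ℤ × (Fin b → ℤ) × (Fin b → ℤ)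

/-- the exponents of the term `l` of the entry `(i; j, r)`. -/
def exB (b κ : ℕ) (E : ℤ) (i : Fin b) (j r l : ℤ) : GG b :=
  ((κ : ℤ) * (E - 9 * j) * l, Pi.single i (r + κ * l), Pi.single i j)

/-- the generic entry. -/
def entB (b κ : ℕ) (E : ℤ) (ρ : ℚ) (i : Fin b) (j r : ℤ) (α β : ℕ) :
    PowerSeries (AddMonoidAlgebra ℚ (GG b)) :=
  PowerSeries.mk fun N => ∑ l ∈ Finset.Icc (-(N : ℤ)) (N + 1),
    if qe κ r l = N then AddMonoidAlgebra.single (exB b κ E i j r l)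
      (ρ ^ l * ((j.toNat.choose β : ℕ) : ℚ) * ((Ring.choose (r + κ * l) α : ℤ) : ℚ)) else 0

/-- the homomorphism of the monomials. -/
def mhB {k : Type} [Field k] {b : ℕ} (z : kˣ) (x y : Fin b → kˣ) : Multiplicative (GG b) →* k where
  toFun g := (mon z x y (Multiplicative.toAdd g) : k)
  map_one' := by simp [mon]
  map_mul' := by
    intro g h
    rw [← Units.val_mul]
    congr 1
    simp only [mon, toAdd_mul, Prod.fst_add, Prod.snd_add, Pi.add_apply, zpow_add,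
      Finset.prod_mul_distrib]
    ac_rfl

/-- the ring homomorphism `(ℚ[G])⟦q⟧ → k((q))`. -/
def fB {k : Type} [Field k] [CharZero k] {b : ℕ} (z : kˣ) (x y : Fin b → kˣ) :
    PowerSeries (AddMonoidAlgebra ℚ (GG b)) →+* KK k :=
  (algebraMap (OO k) (KK k)).comp
    (PowerSeries.map (AddMonoidAlgebra.lift ℚ k (GG b) (mhB z x y) :
      AddMonoidAlgebra ℚ (GG b) →+* k))

/-- **INJ** (0.5 h, no hypotheses). `fB` is injective for algebraically independent `z, x_i, y_i`.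
Proof.  `AddMonoidAlgebra.lift` of `u` is `∑_g u_g • mon z x y g` (`AddMonoidAlgebra.lift_apply`), injective by `Gen`
(linear independence of the monomials); `PowerSeries.map` of an injective map is injective, and
`OO k → KK k` is injective (`IsFractionRing.injective`). -/
def G_INJ : Prop :=
  ∀ (k : Type) [Field k] [CharZero k] (b : ℕ) (z : kˣ) (x y : Fin b → kˣ), Gen z x y →
    Function.Injective (fB z x y)

/-- **ENT** (0.9 h; hypothesis `S_EVC`). The entry of the block matrix is the image of `entB`.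
Proof.  Both sides are images of elements of `OO k` under `algebraMap`; compare the coefficients of `q^N`.
Left: `∑_l` over `l ∈ Icc (-N) (N + 1)`, `qe κ r l = N`, of `ρ^l C(j,β) C(r+κl, α) * mon z x y (exB ..)` and
`mon z x y (exB ..) = z^(κ (E - 9 j) l) x_i^(r + κ l) y_i^j` (`Finset.prod_eq_single`, `Pi.single`).  Right: by
`S_EVC` the coefficient of `q^N` of the coefficient of `s^α` is the `Finsupp.sum` over the coefficient of
`Th κ r c`, `c = ρ z^(κ (E - 9 j))`: `∑_l c^l x_i^(r + κ l) C(r + κ l, α)` over the same `l` (`Finsupp.sum` is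
additive in the first argument, `C (c^l) * T n` is `single n (c^l)`); multiply by the constants `y_i^j`, `C(j,β)`. -/
def G_ENT : Prop :=
  ∀ (k : Type) [Field k] [CharZero k] (b κ : ℕ) (z : kˣ) (x y : Fin b → kˣ) (ρ : ℚ) (E : ℤ)
    (i : Fin b) (j r : ℤ) (α β : ℕ), ρ ≠ 0 → 0 ≤ j → 0 ≤ r → r < κ →
    fB z x y (entB b κ E ρ i j r α β) =
      (algebraMap (OO k) (KK k) (PowerSeries.C ((y i : kˣ) : k))) ^ j.toNat *
        ((j.toNat.choose β : ℕ) : KK k) *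
          PowerSeries.coeff α (evK (x i) (Th κ r ((ρ : k) * (z : k) ^ ((κ : ℤ) * (E - 9 * j)))))

/-- **SUP** (0.8 h, no hypotheses). The coefficients of `entB`.
Proof.  For `0 ≤ r < κ` and `qe κ r l = N`: `0 ≤ N` and `-N ≤ l ≤ N + 1` (for `l ≥ 1` it is
`≥ l (l-1) / 2 ≥ l - 1`; for `l = -t < 0` it is `t (κ (t+1) / 2 - r) ≥ t`; `2 * (l (l-1) / 2) = l (l-1)`).  (1) A
nonzero sum has a nonzero term.  (2) the terms `l' ≠ l` have `r + κ l' ≠ r + κ l`, so `exB` is different. -/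
def G_SUP : Prop :=
  ∀ (b κ : ℕ) (E : ℤ) (ρ : ℚ) (i : Fin b) (j r : ℤ) (α β : ℕ), 0 ≤ r → r < κ →
    (∀ (N : ℕ) (g : GG b), (PowerSeries.coeff N (entB b κ E ρ i j r α β)).coeff g ≠ 0 →
      ∃ l : ℤ, qe κ r l = N ∧ g = exB b κ E i j r l) ∧
    (∀ (N : ℕ) (l : ℤ), qe κ r l = N →
      (PowerSeries.coeff N (entB b κ E ρ i j r α β)).coeff (exB b κ E i j r l) =
        ρ ^ l * ((j.toNat.choose β : ℕ) : ℚ) * ((Ring.choose (r + κ * l) α : ℤ) : ℚ)) ∧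
    ∀ l : ℤ, 0 ≤ qe κ r l

/-- `B_i = 4P² κ' i + 2P² κ' - 1`. -/
def BBi (P κ' : ℕ) (i : ℤ) : ℤ :=
  4 * (P : ℤ) ^ 2 * κ' * i + 2 * (P : ℤ) ^ 2 * κ' - 1

/-- the weights: `288 κ P⁴` for `q`, `16 P² (2P-1)` for `z`,
`144 κ P⁴ - 16 P² (2P-1) E - 72 P² B_i` for `x_i`, `36 (2P-1) B_i` for `y_i`, `κ = b κ'`. -/
def ellB (b κ' P : ℕ) (E : ℤ) : ℤ × GG b →+ ℤ where
  toFun δ := 288 * ((b : ℤ) * κ') * (P : ℤ) ^ 4 * δ.1 + 16 * (P : ℤ) ^ 2 * (2 * P - 1) * δ.2.1 +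
    ((∑ i : Fin b, (144 * ((b : ℤ) * κ') * (P : ℤ) ^ 4 - 16 * (P : ℤ) ^ 2 * (2 * P - 1) * E -
      72 * (P : ℤ) ^ 2 * BBi P κ' ((i : ℕ) : ℤ)) * δ.2.2.1 i) +
      ∑ i : Fin b, 36 * (2 * (P : ℤ) - 1) * BBi P κ' ((i : ℕ) : ℤ) * δ.2.2.2 i)
  map_zero' := by simp
  map_add' x y := by
    simp only [Prod.fst_add, Prod.snd_add, Pi.add_apply, mul_add, Finset.sum_add_distrib]
    ring

/-- **WGT** (0.6 h, no hypotheses). The weight is a square up to a constant of the column.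
Proof.  The two sums are their `i`-th terms (`Finset.sum_eq_single`, `Pi.single`); with `n = r + κ l` and
`2 * qe κ r l = 2 r l + κ l (l-1)`, `κ` times it is `n² - κ n - r² + κ r`; `ring`-like computation (multiply by what
is needed: `288 κ P⁴ qe = 144 P⁴ (n² - κ n - r² + κ r)`). -/
def G_WGT : Prop :=
  ∀ (b κ' P : ℕ) (E : ℤ) (i : Fin b) (j r l : ℤ),
    ellB b κ' P E (qe (b * κ') r l, exB b (b * κ') E i j r l) +
        9 * BBi P κ' ((i : ℕ) : ℤ) ^ 2 =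
      9 * (4 * (P : ℤ) ^ 2 * (r + ((b : ℤ) * κ') * l) - 2 * (2 * P - 1) * j -
          4 * (P : ℤ) ^ 2 * κ' * ((i : ℕ) : ℤ) - 2 * (P : ℤ) ^ 2 * κ' + 1) ^ 2 -
        (36 * (2 * (P : ℤ) - 1) ^ 2 * j ^ 2 +
          144 * (P : ℤ) ^ 4 * (r ^ 2 - (b : ℤ) * κ' * r) +
          16 * (P : ℤ) ^ 2 * (2 * P - 1) * (E - 9 * j) * r)

/-- **IXB** (0.3 h, no hypotheses). The block of a point.
Proof.  `D = 2P² n - (2P-1) j`, `0 ≤ D < 2P² κ' b`; `i0 = D / (2P² κ')`. -/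
def G_IXB : Prop :=
  ∀ (b κ' P : ℕ) (j n : ℤ), 1 ≤ κ' → 1 ≤ P → (2 * (P : ℤ) - 1) * j ≤ 2 * (P : ℤ) ^ 2 * n →
    2 * (P : ℤ) ^ 2 * (n - b * κ') < (2 * (P : ℤ) - 1) * j →
    ∃ i : Fin b, (2 * (P : ℤ) - 1) * j + 2 * (P : ℤ) ^ 2 * κ' * ((i : ℕ) : ℤ) ≤
        2 * (P : ℤ) ^ 2 * n ∧
      2 * (P : ℤ) ^ 2 * (n - κ' * (((i : ℕ) : ℤ) + 1)) < (2 * (P : ℤ) - 1) * j

/-- **BIN** (0.8 h, no hypotheses). Independence of the block vectors.
Proof.  Let `∑_c w c • (..) = 0` (`Fintype.linearIndependent_iff`).  For `i : Fin b` let `a p = w p * ρ^(l0 p)` for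
`p ∈ C`, `i0 p = i`, and `0` otherwise.  The coordinates `(i, (α, β))` say
`∑_(p ∈ C, i0 p = i) a p C(p.1, β) C(p.2, α) = 0` for `α + β < M` (`Ring.choose (n : ℤ) β = n.choose β` for natural
`n`: `Ring.choose_natCast`).  The points `p ∈ C` with `i0 p = i` are those of the filter in the hypothesis (the two
inequalities determine `i`: `2P² κ' i ≤ D < 2P² κ' (i + 1)`), so `a = 0` on them by `Indep`, and `w = 0` since
`ρ^(l0 p) ≠ 0`. -/
def G_BIN : Prop :=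
  ∀ (b κ' P M : ℕ) (ρ : ℚ) (C : Finset (ℤ × ℤ)) (i0 : C → Fin b) (l0 : C → ℤ), 1 ≤ κ' → 1 ≤ P →
    ρ ≠ 0 → (∀ p ∈ C, 0 ≤ p.1) →
    (∀ p : C, (2 * (P : ℤ) - 1) * p.1.1 + 2 * (P : ℤ) ^ 2 * κ' * ((i0 p : ℕ) : ℤ) ≤
        2 * (P : ℤ) ^ 2 * p.1.2 ∧
      2 * (P : ℤ) ^ 2 * (p.1.2 - κ' * (((i0 p : ℕ) : ℤ) + 1)) < (2 * (P : ℤ) - 1) * p.1.1) →
    (∀ i : ℕ, i < b → Indep M (C.filter fun p =>
      (2 * (P : ℤ) - 1) * p.1 + 2 * (P : ℤ) ^ 2 * κ' * i ≤ 2 * (P : ℤ) ^ 2 * p.2 ∧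
      2 * (P : ℤ) ^ 2 * (p.2 - κ' * (i + 1)) < (2 * (P : ℤ) - 1) * p.1)) →
    LinearIndependent ℚ (fun (p : C) (x : Fin b × Mon M) => if x.1 = i0 p then
      ρ ^ l0 p * ((p.1.1.toNat.choose (x.2.1.2 : ℕ) : ℕ) : ℚ) *
        ((Ring.choose p.1.2 (x.2.1.1 : ℕ) : ℤ) : ℚ) else 0)

/-- **BLK** (1.3 h; hypotheses `G_GEN`, `G_LIF`, `G_PSLZ`, `G_INJ`, `G_ENT`, `G_SUP`, `G_WGT`, `G_IXB`, `G_BIN`, `S_TIP`).
Proof of `S_BLK`.  `κ = b κ'`; for `p ∈ C`: `r = p.2 % κ`, `l0 = p.2 / κ`, so `p.2 = r + κ l0`; `i0 p` from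
`G_IXB`.  `G_GEN` with `F = ℚ`, `R = PowerSeries (AddMonoidAlgebra ℚ (GG b))`, `Γ = ℤ × GG b`, `K` of `G_PSLZ`, `κ := Fin b`,
`ι := C`, `ρ := Fin b × Mon M`, `ℓ = ellB b κ' P E`, `lam i = 9 B_i²`, `M (i, (α, β)) p = entB b κ E ρ i p.1 r α β`,
`γ p = (qe κ r l0, exB b κ E (i0 p) p.1 r l0)`, `a (i, (α, β)) p = ρ^l0 C(p.1, β) C(p.2, α)`.  Support: a nonzero
coefficient at `δ` has `δ.1 ≥ 0` (`G_PSLZ`) and `δ = (qe κ r l, exB b κ E i p.1 r l)` by `G_SUP`; with `n = r + κ l`: if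
`(i, n) = (i0 p, p.2)` then `δ = γ p`; otherwise `G_WGT` twice and `S_TIP` (`n0 = p.2`, `b κ' ∣ n - n0`) give
`ℓ (γ p) + lam (i0 p) < ℓ δ + lam i` (the constants of the column cancel, `Z(i0, n0)² < (2P² κ')² < Z(i, n)²`).
Coefficients: `G_SUP` (2).  Independence: `G_BIN`.  So some minor `Δ` of `M` is not zero, `fB Δ ≠ 0` by `G_INJ`,
`fB Δ` is the same minor of the matrix `fB (M x p)` (`RingHom.map_det`), by `G_ENT` the matrix of the conditions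
(with `(b * κ' : ℕ)`); `G_LIF` gives linear independence of the columns over `KK k`, and the hypothesis on `a` is a
linear relation of the columns: `a p = 0`. -/
def G_BLK : Prop :=
  G_GEN → G_LIF → G_PSLZ → G_INJ → G_ENT → G_SUP → G_WGT → G_IXB → G_BIN → S_TIP → S_BLK

/-- **STRH** (0.8 h; hypothesis `S_SPN`, `G_STR` (proved)). `S_STR` from `G_STR`.
Proof of `S_STR`.  (1) `Indep M S` if the vectors `vec ℚ M x`, `x ∈ S`, are linearly independent: by `S_SPN` with the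
list of `a` times `(0, 1, 0)` and `b` times `(1, 0, 0)` (length `a + b < M`) the relation gives
`∑_p a p * (p.2^a * p.1^b) = 0` for `a + b < M`, i.e. `∑_p a p • vec ℚ M p = 0`.  (2) Let `2 κ P + R = 2 M + 1`; `R` is
odd.  If `R > 2 κ P` let `2 s' = R - 1 - 2 κ P`: then `M = 2 κ P + s'`, `P R = P (2 κ P + 2 s' + 1)`: the first case of
`Adm κ P M (P * R) s'`.  If `R < 2 κ P` let `2 s' + 1 = 2 κ P - R`: `M + 1 + s' = 2 κ P` and
`P R + P (2 s' + 1) = P (2 κ P)`: the second case.  All points of `strip P κ (P R) s` are in `Strip κ P (P R) s`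
(`2P² s ≤ DD P j n < 2P² (s + κ)`).  `G_STR`. -/
def G_STRH : Prop := G_STR → S_SPN → S_STR

end Pool.Agent.Helper3.FewP
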