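import Pool.Agent.Helper3.FewP.Goals2
import Pool.Agent.Helper87.FewP.PSL

/-!
PSLZ: the same proof as Helper87's PSL, with the vanishing at negative exponents.
-/

set_option autoImplicit false

namespace Pool.Agent.Helper3.FewP.PSLZ

open Pool.Agent.Helper3.FewP Pool.Agent.Helper87.FewP

theorem t : G_PSLZ := by
  intro F Δ _ _
  refine ⟨⟨cfP, ?_, cfP_supp, cfP_mul, ?_⟩, cfP_nat,
    fun f e δ he => cfP_neg f (e, δ) he⟩
  · intro f g γ
    unfold cfP
    by_cases h : 0 ≤ γ.1
    · rw [if_pos h, if_pos h, if_pos h, map_add, AddMonoidAlgebra.coeff_add, Finsupp.add_apply]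
    · rw [if_neg h, if_neg h, if_neg h, add_zero]
  · constructor
    · have h := cfP_nat (1 : PowerSeries (AddMonoidAlgebra F Δ)) 0 0
      rw [PowerSeries.coeff_zero_one, AddMonoidAlgebra.coeff_one_zero] at h
      exact h
    · intro γ hγ
      classical
      by_cases h0 : 0 ≤ γ.1
      · obtain ⟨e, he⟩ := Int.eq_ofNat_of_zero_le h0
        have hγ' : γ = ((e : ℤ), γ.2) := Prod.ext he rfl
        rw [hγ', cfP_nat, PowerSeries.coeff_one]
        by_cases he0 : e = 0
        · rw [if_pos he0, AddMonoidAlgebra.one_def, AddMonoidAlgebra.coeff_single,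
            Finsupp.single_apply, if_neg]
          intro h2
          apply hγ
          rw [hγ', he0, ← h2]
          rfl
        · rw [if_neg he0, AddMonoidAlgebra.coeff_zero, Finsupp.zero_apply]
      · exact cfP_neg _ _ (not_le.1 h0)


end Pool.Agent.Helper3.FewP.PSLZ
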